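import Pool.Agent.H10.Inj.Cor
import Pool.Agent.H10.T.Main

/-!
# Labelled oriented trees with injective labels, and injective labelled forests of groups

The complex `K(L)` of a labelled oriented graph `L` has one 0-cell, a 1-cell for every vertex and a
2-cell for every edge, attached along `x_ini x_lab x_ter⁻¹ x_lab⁻¹`; its fundamental group is `L.G`.
For a labelled oriented tree `L` the complex `K(L) ∪ f`, with one more 2-cell attached along a 1-cell, is
contractible.

`Twist I K E` is a labelled graph with the set of vertices `I` and the set of edges `E`, with groups
`K i` at the vertices and elements `c e`, `d e`, `w e` of the groups at the two ends and at the label of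
the edge `e`; `Twist.Grp` is the quotient of the free product of the groups `K i` by the relations
`c w = w d`, and `Twist.inc i` is the homomorphism from `K i` to it.
-/

namespace Pool.Agent.Results.MP_cf50d6_gt.InjectiveLabels

open Pool.Agent.H10.Inj Pool.Agent.H10.Inj.Blocks Pool.Agent.H10.Inj.Rel Pool.Agent.H10.T

/-- (1) **Injective labelled forests of groups.** Let `F` be a labelled forest of locally indicable
groups such that different edges have different labels and the elements `c e`, `d e`, `w e` are
nontrivial. Then the quotient of the free product by the relations `c w = w d` is locally indicable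
and the groups `K i` embed.

(2) **The block theorem.** Let the vertices of a labelled oriented graph be partitioned into blocks
whose groups are locally indicable. If different edges which are not inner edges of a block have
labels in different blocks, and if the quotient graph formed by these edges is a forest, then the
group is locally indicable and the groups of the blocks embed.

(3) Let `L` be a labelled oriented tree, finite or infinite. Then `K(L) ∪ f` is contractible, and the
fundamental groups of all subcomplexes of `K(L)` without two 2-cells with the same label are locally
indicable.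

(4) In a forest with injective labels the groups of the closed finite subgraphs with one vertex more
than edges embed.

(5) A finite connected graph with one vertex more than edges is a tree in the sense of (3). -/
theorem result :
    (∀ (I E : Type) (K : I → Type) [∀ i, Group (K i)] (F : Twist I K E), (∀ i, LocInd (K i)) →
      (∀ e, F.c e ≠ 1) → (∀ e, F.d e ≠ 1) → (∀ e, F.w e ≠ 1) → Function.Injective F.κ →
      Sparse F.γ F.δ → LocInd F.Grp ∧ ∀ i, Function.Injective (F.inc i)) ∧
    (∀ (V E I : Type) (L : LOG V E) (bl : V → I), InjForest L bl →
      (∀ i, LocInd (L.blk bl i).G) →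
        LocInd L.G ∧ ∀ i, Function.Injective (blkHom L bl i)) ∧
    (∀ (V E : Type) (L : LOG V E), L.Conn → Sparse L.ini L.ter →
      (∀ v₀ : V, L.ContractibleWith v₀) ∧
      ∀ (V₁ : Set V) (E₁ : Set E) (h : L.Closed V₁ E₁), Set.InjOn L.lab E₁ →
        LocInd (L.sub V₁ E₁ h).G) ∧
    (∀ (V E : Type) (L : LOG V E), Function.Injective L.lab → Sparse L.ini L.ter →
      ∀ (V₁ : Finset V) (E₁ : Finset E) (h : L.Closed V₁ E₁), V₁.card = E₁.card + 1 →
        Function.Injective (L.subHom V₁ E₁ h)) ∧
    ∀ (V E : Type) [Fintype V] [Fintype E] (L : LOG V E), L.Conn →
      Fintype.card V = Fintype.card E + 1 → Sparse L.ini L.ter :=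
  ⟨fun _ _ _ _ F hloc hc hd hw hκ hsp => F.locInd hloc hc hd hw hκ hsp,
    fun _ _ _ L bl h hloc => block_thm L bl h hloc,
    fun _ _ L hL hsp => ⟨contractibleWith L hL hsp, fun V₁ E₁ h hinj =>
      sub_thm L hsp V₁ E₁ h hinj⟩,
    fun _ _ L hinj hsp V₁ E₁ h hc => tight_thm L hinj hsp V₁ E₁ h hc,
    fun V E _ _ L hL hc => Tree.main V E L hL hc⟩

end Pool.Agent.Results.MP_cf50d6_gt.InjectiveLabels
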