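import Pool.Agent.H10.W.StackSub

/-!
# Relative stackings and local indicability

`Sys I K R`: a relative presentation over the family of groups `K i`, `i : I`; the relator `r` is the
product of the letters `l r 0, …, l r (n r - 1)`, which are elements of the groups `K i`. `Sys.Grp` is
the quotient of the free product of the groups `K i` by the relators, `Sys.inc i` is the homomorphism
from `K i` to it, `Sys.restrict` is the relative presentation with a subset of the relators.

The complex `K(L)` of a labelled oriented graph `L` has one 0-cell, a 1-cell for every vertex and a
2-cell for every edge, attached along `x_ini x_lab x_ter⁻¹ x_lab⁻¹`; its fundamental group is `L.G`, its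
subcomplexes are the complexes of the parts `L.sub V₁ E₁`.
-/

namespace Pool.Agent.Results.MP_cf50d6_gt.RelativeStackings

open Pool.Agent.H10.Inj Pool.Agent.H10.W

/-- (1) **Relative stackings.** Let the groups `K i` be locally indicable and let `h` be a good stacking
of the relative presentation `P` over them. Then the group of `P`, and the group of every relative
presentation which consists of some of the relators of `P`, is locally indicable, and the groups `K i`
embed.

(2) **Labelled oriented graphs.** If the complex `K(L)` of a labelled oriented graph has a good stacking,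
then the fundamental groups of all subcomplexes of `K(L)` are locally indicable. If `L` is a tree, then
`K(L)` with one more 2-cell is contractible. -/
theorem result :
    (∀ (I R Λ : Type) (K : I → Type) [∀ i, Group (K i)] [LinearOrder Λ] (P : Sys I K R)
      (h : R → ℕ → Λ), P.Stack h → (∀ i, LocInd (K i)) →
        (LocInd P.Grp ∧ ∀ i, Function.Injective (P.inc i)) ∧
        ∀ S : Set R, LocInd (P.restrict S).Grp ∧ ∀ i, Function.Injective ((P.restrict S).inc i)) ∧
    ∀ (V E Λ : Type) [LinearOrder Λ] (L : LOG V E) (h : E → Fin 4 → Λ), LOGStack L h →
      (∀ (V₁ : Set V) (E₁ : Set E) (hc : L.Closed V₁ E₁), LocInd (L.sub V₁ E₁ hc).G) ∧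
      (L.Conn → Sparse L.ini L.ter → ∀ v₀ : V, L.ContractibleWith v₀) :=
  ⟨fun _ _ _ _ _ _ P h hS hloc => ⟨stack P h hS hloc,
    fun S => stack (P.restrict S) _ (hS.restrict S) hloc⟩,
    fun _ _ _ _ L _ hS => ⟨hS.locInd, fun hc hsp => contractibleWith L hc hsp⟩⟩

end Pool.Agent.Results.MP_cf50d6_gt.RelativeStackings
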