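import Pool.Agent.H10.W.Restrict

/-!
# A relative weight test for local indicability

`Sys I K R`: a relative presentation over the family of groups `K i`, `i : I`; the relator `r` is the
product of the letters `l r 0, …, l r (n r - 1)`, which are elements of the groups `K i`. `Sys.Grp` is
the quotient of the free product of the groups `K i` by the relators, `Sys.inc i` is the homomorphism
from `K i` to it. `Sys.Test` is the weight test, for signs `sg` of the letters and real weights `w` of
the corners. `Sys.restrict` is the relative presentation with a subset of the relators: if the groups
`K i` are free, these are the subcomplexes of the presentation complex.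
-/

namespace Pool.Agent.Results.MP_cf50d6_gt.RelativeWeightTest

open Pool.Agent.H10.Inj (LocInd)
open Pool.Agent.H10.W

/-- **The relative weight test.** Let the groups `K i` be locally indicable, and let the relative
presentation `P` over them satisfy the weight test for some signs of the letters and some real weights
of the corners. Then the group of `P`, and the group of every relative presentation which consists of
some of the relators of `P`, is locally indicable, and the groups `K i` embed. -/
theorem result (I R : Type) (K : I → Type) [∀ i, Group (K i)] (P : Sys I K R)
    (sg : R → ℕ → Bool) (w : R → ℕ → ℝ) (h : P.Test sg w) (hloc : ∀ i, LocInd (K i)) :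
    (LocInd P.Grp ∧ ∀ i, Function.Injective (P.inc i)) ∧
    ∀ S : Set R, LocInd (P.restrict S).Grp ∧ ∀ i, Function.Injective ((P.restrict S).inc i) :=
  ⟨test P sg w h hloc, fun S => test (P.restrict S) _ _ (h.restrict S) hloc⟩

end Pool.Agent.Results.MP_cf50d6_gt.RelativeWeightTest
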