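import Pool.Agent.H10.Inj.Hier

/-!
# Signed and one-sided partitions of labelled oriented graphs

The complex `K(L)` of a labelled oriented graph `L` has one 0-cell, a 1-cell for every vertex and a
2-cell for every edge, attached along `x_ini x_lab x_ter⁻¹ x_lab⁻¹`; its fundamental group is `L.G`, its
subcomplexes are the complexes of the parts `L.sub V₁ E₁`. No assumption on the labels is made.
-/

namespace Pool.Agent.Results.MP_cf50d6_gt.SignedPartitions

open Pool.Agent.H10.Inj Pool.Agent.H10.Inj.Gen Pool.Agent.H10.Inj.Rel

/-- (1) **Signed partitions.** Let the vertices of a labelled oriented graph be partitioned into blocks
whose groups are locally indicable, such that every edge lies in a block, with its label, or has both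
ends outside the block of its label, and let the blocks have signs such that two graphs on the blocks
are forests: for every edge of the second kind, the first graph joins the block of the label to the
block of the initial vertex if the sign is positive and to the block of the terminal vertex otherwise;
the second graph joins it to the block of the other end. Then the group is locally indicable and the
groups of the blocks embed.

(2) **One-sided partitions.** Let the vertices have nonzero integral heights, equal for the two ends of
every edge, and let one graph on the blocks be a forest, which joins, for every edge not in a block,
the block of its label to the block of its initial vertex if the height of the label is positive and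
of its terminal vertex otherwise. Then the same holds.

(3) If `L` is built up from graphs without edges by such partitions, and by injective partitions with
a forest as quotient, then the fundamental groups of all subcomplexes of `K(L)` are locally indicable.
If `L` is a tree, then `K(L)` with one more 2-cell is contractible. -/
theorem result :
    (∀ (V E I : Type) (L : LOG V E) (bl : V → I) (ε : I → Bool), Signed L bl ε →
      (∀ i, LocInd (L.blk bl i).G) →
        LocInd L.G ∧ ∀ i, Function.Injective (blkHom L bl i)) ∧
    (∀ (V E I : Type) (L : LOG V E) (bl : V → I) (h : V → ℤ), OneSided L bl h →
      (∀ i, LocInd (L.blk bl i).G) →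
        LocInd L.G ∧ ∀ i, Function.Injective (blkHom L bl i)) ∧
    ∀ (V E : Type) (L : LOG V E), Built L →
      (∀ (V₁ : Set V) (E₁ : Set E) (h : L.Closed V₁ E₁), LocInd (L.sub V₁ E₁ h).G) ∧
      (L.Conn → Sparse L.ini L.ter → ∀ v₀ : V, L.ContractibleWith v₀) :=
  ⟨fun _ _ _ L bl ε h hloc => signed_thm L bl ε h hloc,
    fun _ _ _ L bl ht h hloc => oneSided_thm L bl ht h hloc,
    fun _ _ L hL => ⟨hL.locInd, fun hc hsp => contractibleWith L hc hsp⟩⟩

end Pool.Agent.Results.MP_cf50d6_gt.SignedPartitions
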